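import Pool.Agent.H91.UV.Stmt
import Pool.Agent.H49.SDP.Targets

/-!
# MP_c62aed_lc: convex programs chosen after the formula: targets without the core (helper91)
-/

namespace Pool.Agent.H91.UV

open Finset Matrix
open Pool.Agent.H1.LP (Clause viol)
open Pool.Agent.H49.SDP (SRelax HardS)

/-- TOS: one block -/
def S_TOS : Prop :=
  ∀ (n : ℕ) (P : URelax n), ∃ Q : SRelax n, Q.cell = P.cell ∧ Q.ord = ∑ i, P.ord i ∧
    ∀ (m : ℕ) (phi : Fin m → Clause n) (de : ℝ), P.Refutes phi de → Q.Refutes phi de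

/-- UDUAL: duality for a product of cones -/
def S_UDUAL : Prop :=
  ∀ (n m : ℕ) (P : URelax n) (phi : Fin m → Clause n) (de : ℝ), P.cell.Nonempty →
    P.Refutes phi de → ∀ η : ℝ, 0 < η →
    ∃ (L : (i : Fin P.nb) → Matrix (Fin (P.ord i)) (Fin (P.ord i)) ℝ) (lam0 : ℝ),
      (∀ i, (L i).PosSemidef) ∧ 0 ≤ lam0 ∧
      ∀ x ∈ P.cell, |∑ i, P.loss (phi i) (P.pt x) - de -
        (lam0 + ∑ i, (L i * (P.B0 i + ∑ k, P.pt x k • P.B i k)).trace)| ≤ η

/-- PADU: padding of the clauses -/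
def S_PADU : Prop :=
  ∀ (w k : ℕ) (ε c c' C C' : ℝ), w ≤ k → c' < c → C' < C → HardU w ε c C → HardU k ε c' C'

/-- MONOU: `S_TOS → S_MONOU`; fixed families, number of matrix entries as size -/
def S_MONOU : Prop :=
  ∀ (k : ℕ) (ε c : ℝ), HardS k ε c → HardU k ε (c / 2) (c / 2)

/-- LIMU: `S_PADU → S_MONOU → S_LIMU` -/
def S_LIMU : Prop :=
  StatementUW → (∀ ε : ℝ, 0 < ε → ∃ c : ℝ, 0 < c ∧ HardS 3 ε c) → StatementU

end Pool.Agent.H91.UV
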