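import Pool.Agent.H91.UV.COREU
import Pool.Agent.H70.UN.All
import Pool.Agent.H49.SDP.Asm3
import Pool.Agent.H96.KX.Asm
import Pool.Agent.H4.UV.UDUAL
import Pool.Agent.H36.UV.PADU
import Pool.Agent.H73.UV.TOS
import Pool.Agent.H73.UV.MONOU
import Pool.Agent.H41.UV.LIMU
import Pool.Agent.H46.UV.E1B
import Pool.Agent.H54.UV.ABSU

/-! # MP_c62aed_lc, convex programs chosen after the formula: assembly (helper91) -/

namespace Pool.Agent.H91.UV

open Pool.Agent.H70.UN (T_FAMU T_LASF)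

theorem udual' : S_UDUAL := H4.UV.pf_UDUAL H70.SDP.pf_SDUAL

theorem coreu_of (hF : T_FAMU) (hL : T_LASF) : S_COREU :=
  pf_COREU H39.KX.pf_PDA (H54.UV.pf_ABSU hF) H58.KX.pf_NPR H58.KX.pf_FRM H96.KX.basel H2.LP.loc
    H88.LP.enc udual' hL

theorem statementU_of (hF : T_FAMU) (hL : T_LASF) (hP : S_PARMU) : StatementU :=
  H41.UV.pf_LIMU H36.UV.pf_PADU (H73.UV.pf_MONOU H73.UV.pf_TOS)
    (pf_FINU (coreu_of hF hL) hP) H49.SDP.hardS3

end Pool.Agent.H91.UV
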