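import Pool.Agent.H91.UV.TargetsA
import Pool.Agent.H91.AV.Targets
import Pool.Agent.H70.UN.Targets

/-!
# MP_c62aed_lc: convex programs chosen after the formula: targets on top of the unified core
(helper91)

Formulas = tables `a : Fin N → Fin q → Θ`, points = `(ζ, b)`, outer point
`fun k => x.1 k + a k (x.2 k)`, as in `T_FAMU` of helper70 (board `uni_modules`).
-/

namespace Pool.Agent.H91.UV

open Finset Matrix
open Pool.Agent.H1.LP (Clause viol supp ip kk)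
open Pool.Agent.H70.UN (PosFam ERR E1 T_FAMU T_LASF)

/-- ABSU: `T_FAMU → S_ABSU`.  `C` = possible clauses, `V c z` = the outer point `z` violates the
equation of the clause `c`, `inF a c` = the clause `c` is in the formula `a`, `sat c x` = the point
`x` satisfies `c`. -/
def S_ABSU : Prop :=
  ∀ (Θ : Type) [Fintype Θ] [DecidableEq Θ] [AddCommGroup Θ] (t : ℝ), 1 < t → t < 3 / 2 →
    ∀ (N q d : ℕ), 1 < q → d ≤ N → ∀ (D : (Fin N → Θ) → ℝ) (Mx : ℝ), 1 ≤ Mx →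
    (∀ z, |D z| ≤ Mx) → PosFam d D → ∑ z, D z = (Fintype.card Θ : ℝ) ^ N →
    ∀ (C : Type) [Fintype C] (V : C → (Fin N → Θ) → Prop) [∀ c, DecidablePred (V c)]
      (inF : (Fin N → Fin q → Θ) → C → Prop) (sat : C → (Fin N → Θ) × (Fin N → Fin q) → Prop),
    (∀ c, PosFam d (fun z => if V c z then D z else 0) ∧
      PosFam d (fun z => if V c z then - D z else 0)) →
    (∀ a c x, inF a c → ¬ sat c x → V c (fun k => x.1 k + a k (x.2 k))) →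
    ∀ (M : ℕ) (A : Finset (Fin N → Fin q → Θ)) (J : (Fin N → Fin q → Θ) → Finset (Fin M))
      (cell : Fin M → Set ((Fin N → Θ) × (Fin N → Fin q))) (nb : Fin M → ℕ)
      (o : (j : Fin M) → Fin (nb j) → ℕ)
      (G : (j : Fin M) → (Fin N → Θ) × (Fin N → Fin q) → (i : Fin (nb j)) →
        Matrix (Fin (o j i)) (Fin (o j i)) ℝ)
      (L : (Fin N → Fin q → Θ) → (j : Fin M) → (i : Fin (nb j)) →
        Matrix (Fin (o j i)) (Fin (o j i)) ℝ)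
      (lam0 : (Fin N → Fin q → Θ) → Fin M → ℝ)
      (ls : Fin M → C → (Fin N → Θ) × (Fin N → Fin q) → ℝ)
      (F : (Fin N → Fin q → Θ) → Finset C) (de S W K LAM : ℝ),
      0 < de → 1 ≤ K → 1 ≤ LAM → (∀ a c, c ∈ F a ↔ inF a c) →
      (∀ a ∈ A, ∀ x, ∃ j ∈ J a, x ∈ cell j) →
      (∀ a ∈ A, ∀ j ∈ J a, ∀ j' ∈ J a, j ≠ j' → Disjoint (cell j) (cell j')) →
      (∀ j, ∀ x ∈ cell j, ∀ i, (G j x i).PosSemidef) → (∀ a j i, (L a j i).PosSemidef) →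
      (∀ a j, 0 ≤ lam0 a j) →
      (∀ j c, ∀ x ∈ cell j, |ls j c x| ≤ 1) → (∀ j c, ∀ x ∈ cell j, sat c x → ls j c x ≤ 0) →
      (∀ a ∈ A, ∀ j ∈ J a, ∀ x ∈ cell j,
        |∑ c ∈ F a, ls j c x - de - (lam0 a j + ∑ i, (L a j i * G j x i).trace)| ≤
          de / (4 * Mx)) →
      (∀ a ∈ A, ∑ j ∈ J a, (∑ i, (o j i : ℝ) ^ 2 + 1) ≤ S) →
      ∑ j, (∑ i, (o j i : ℝ) ^ 2 + 1) ≤ W →
      de ≤ 11 * (Fintype.card C + 1) * Mx * (2 * Fintype.card C + 1) *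
          ERR (Fintype.card Θ) t K LAM ((3 * Fintype.card C + 1) * S) N d q ∨
      (A.card : ℝ) * LAM ≤
        2 * (3 * Fintype.card C + 1) * W * Fintype.card (Fin N → Fin q → Θ)

/-- the number of possible clauses -/
def NC (E L B : ℕ) : ℕ := 4 * E * B * 2 ^ ((4 * E + 1) * (L + 1) * kk E)

/-- the core inequality; `b = (4E+1)(L+1)` bits per block, width `b kk E` -/
def S_COREU : Prop :=
  ∀ (E L n B : ℕ), 16 ≤ E → 1 ≤ L → 2 * kk E ≤ B → B * ((4 * E + 1) * (L + 1)) ≤ n →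
    ∃ (Y : ℕ) (m : Fin Y → ℕ) (phi : (a : Fin Y) → Fin (m a) → Clause n) (p : ℕ), 0 < Y ∧
      2 ^ (4 * E) < p ∧ p ≤ 2 ^ (4 * E + 1) ∧
      (∀ a, 1 ≤ m a ∧ m a ≤ NC E L B ∧
        (∀ i, (phi a i).card = (4 * E + 1) * (L + 1) * kk E ∧
          ((phi a i).image Prod.fst).card = (4 * E + 1) * (L + 1) * kk E) ∧
        ∀ x, (1 - 1 / (E : ℝ)) * ((m a : ℝ) / 2 ^ ((4 * E + 1) * (L + 1) * kk E)) ≤
          (viol (phi a) x : ℝ)) ∧
      ∀ (M : ℕ) (P : Fin M → URelax n) (A : Finset (Fin Y)) (de S W K LAM t : ℝ), 0 < de →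
        1 ≤ K → 1 ≤ LAM → 1 < t → t < 3 / 2 → (∀ a ∈ A, URefutedBy P (phi a) de S) →
        ∑ j, (P j).size ≤ W →
        de ≤ 11 * (NC E L B + 1) * (p : ℝ) ^ B * (2 * NC E L B + 1) *
          ERR p t K LAM ((3 * NC E L B + 1) * S) B (B - 8 * (B / E) - kk E) (p ^ L) ∨
        (A.card : ℝ) * LAM ≤ 2 * (3 * NC E L B + 1) * W * Y

/-- E1B: powers of two in the error term -/
def S_E1B : Prop :=
  ∀ (E L B d p : ℕ) (e LAM R : ℝ), 1 ≤ E → 1 ≤ L → d ≤ B → 0 < e → e < 1 / 2 → 0 < LAM → 0 < R →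
    2 ^ (4 * E) < p → p ≤ 2 ^ (4 * E + 1) →
    E1 p (1 + e) (2 ^ (4 * E + 3)) LAM R B d (p ^ L) * Real.sqrt R ≤
      2 ^ ((14 * E + 9) * B) * (1 / e) ^ B * (LAM * R) ^ e * Real.sqrt R *
        Real.sqrt (2 ^ ((4 * E + 1) * L * (B - d))) *
        (2 : ℝ) ^ (-(((4 * E * L * B : ℕ) : ℝ) / (2 * (1 + e))))

/-- PARMU: `S_E1B → S_PARMU`, choice of the parameters -/
def S_PARMU : Prop :=
  ∀ C ε : ℝ, 0 < ε → ∃ (E L K : ℕ) (γ e : ℝ), 16 ≤ E ∧ 1 ≤ L ∧ 0 < e ∧ e < 1 / 2 ∧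
    1 / (E : ℝ) ≤ ε ∧ 0 < γ ∧
    ∃ n₀ : ℕ, ∀ n : ℕ, n₀ ≤ n → ∃ (B : ℕ) (LAM : ℝ), 2 * kk E ≤ B ∧
      B * ((4 * E + 1) * (L + 1)) ≤ n ∧ NC E L B ≤ K * n ∧ 1 ≤ LAM ∧
      2 * (3 * NC E L B + 1) * (2 : ℝ) ^ (C * n) * (2 : ℝ) ^ (γ * n) ≤ LAM ∧
      ∀ p : ℕ, 2 ^ (4 * E) < p → p ≤ 2 ^ (4 * E + 1) →
        11 * (NC E L B + 1) * (p : ℝ) ^ B * (2 * NC E L B + 1) *
          ERR p (1 + e) (2 ^ (4 * E + 3)) LAM ((3 * NC E L B + 1) * (2 : ℝ) ^ ((1 - ε) * n)) B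
            (B - 8 * (B / E) - kk E) (p ^ L) < (2 : ℝ) ^ (-(γ * n))

/-- FINU -/
theorem pf_FINU (hC : S_COREU) (hP : S_PARMU) : StatementUW := by
  classical
  intro C ε hε
  obtain ⟨E, L, K, γ, e, hE, hL, he0, he1, hEε, hγ, n₀, hn⟩ := hP C ε hε
  refine ⟨(4 * E + 1) * (L + 1) * kk E, K, γ, hγ, n₀, fun n hn0 => ?_⟩
  obtain ⟨B, LAM, hkB, hBn, hKn, hLAM, hsh, hpar⟩ := hn n hn0
  obtain ⟨Y, m, phi, p, hY, hp1, hp2, h1, h2⟩ := hC E L n B hE hL hkB hBn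
  refine ⟨Y, m, phi, hY, ?_, ?_⟩
  · intro a
    obtain ⟨g1, g2, g3, g4⟩ := h1 a
    refine ⟨g1, g2.trans hKn, g3, fun x => le_trans ?_ (g4 x)⟩
    gcongr
  · intro M P hW
    obtain ⟨A, hA⟩ : ∃ A, A = univ.filter (fun a => URefutedBy P (phi a) ((2 : ℝ) ^ (-(γ * n)))
      ((2 : ℝ) ^ ((1 - ε) * n))) := ⟨_, rfl⟩
    rw [← hA]
    have h3 := h2 M P A ((2 : ℝ) ^ (-(γ * n))) ((2 : ℝ) ^ ((1 - ε) * n))
      ((2 : ℝ) ^ (C * n)) (2 ^ (4 * E + 3)) LAM (1 + e)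
      (by positivity) (one_le_pow₀ (by norm_num)) hLAM (by linarith) (by linarith)
      (fun a ha => by
        rw [hA] at ha
        exact (mem_filter.1 ha).2) hW
    rcases h3 with h3 | h3
    · exact absurd h3 (not_le.2 (hpar p hp1 hp2))
    · obtain ⟨g, hg⟩ : ∃ g : ℝ, g = (2 : ℝ) ^ (γ * n) := ⟨_, rfl⟩
      have hg0 : 0 < g := by rw [hg]; positivity
      obtain ⟨w, hw⟩ : ∃ w : ℝ, w = 2 * (3 * (NC E L B : ℝ) + 1) * (2 : ℝ) ^ (C * n) := ⟨_, rfl⟩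
      have hw0 : 0 < w := by rw [hw]; positivity
      rw [← hg, ← hw] at hsh
      rw [← hw] at h3
      have h5 : (2 : ℝ) ^ (-(γ * n)) = g⁻¹ := by
        rw [hg, Real.rpow_neg (by norm_num)]
      rw [h5]
      have h6 : (A.card : ℝ) * (w * g) ≤ w * Y := by
        refine le_trans ?_ h3
        exact mul_le_mul_of_nonneg_left hsh (Nat.cast_nonneg _)
      have h7 : (A.card : ℝ) * g ≤ Y := by
        have : w * ((A.card : ℝ) * g) ≤ w * Y := by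
          calc w * ((A.card : ℝ) * g) = (A.card : ℝ) * (w * g) := by ring
            _ ≤ w * Y := h6
        exact le_of_mul_le_mul_left this hw0
      rw [inv_mul_eq_div, le_div_iff₀ hg0]
      exact h7

end Pool.Agent.H91.UV
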