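import Pool.Agent.H91.UV.Asm
import Pool.Agent.H91.UN.PBW
import Pool.Agent.H20.UV.PARMU

/-! # MP_c62aed_lc, convex programs chosen after the formula: the theorem (helper91) -/

namespace Pool.Agent.H91.UV

theorem famlas : Pool.Agent.H70.UN.T_FAMU ∧ Pool.Agent.H70.UN.T_LASF :=
  Pool.Agent.H70.UN.allU H91.UN.pf_PBW

theorem parmu' : S_PARMU := H20.UV.pf_PARMU H46.UV.pf_E1B

/-- the large width case -/
theorem statementUW : StatementUW := pf_FINU (coreu_of famlas.1 famlas.2) parmu'

/-- SETH for linear, second order cone and semidefinite programs -/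
theorem statementU : StatementU := statementU_of famlas.1 famlas.2 parmu'

end Pool.Agent.H91.UV
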