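import Pool.Agent.H49.SDP.Stmt

/-!
# SETH for convex programs chosen after the formula: the statement (MP_c62aed_lc)
-/

namespace Pool.Agent.H91.UV

open Pool.Agent.H1.LP (Clause viol)
open Filter Topology

/-- A convex programming relaxation of CNF-SAT on a cell of the cube.  It consists of a convex set
`{y : B0 i + ∑ k, y k • B i k is positive semidefinite for all i}`, given by `nb` linear matrix
inequalities with symmetric matrices of orders `ord i`, in any dimension `dim`; a feasible point
`pt x` for every assignment `x` in the cell; and for every clause `C` an affine functional (its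
loss), which takes at the points `pt x` values in `[-1, 1]`, and values `≤ 0` if `x` satisfies `C`.
The convex set does not depend on the formula.  A linear inequality is the case `ord i = 1`. -/
structure URelax (n : ℕ) where
  /-- the cell -/
  cell : Finset (Fin n → Bool)
  /-- the dimension of the convex set -/
  dim : ℕ
  /-- the number of linear matrix inequalities -/
  nb : ℕ
  /-- the orders of the matrices -/
  ord : Fin nb → ℕ
  /-- the constant matrices -/
  B0 : (i : Fin nb) → Matrix (Fin (ord i)) (Fin (ord i)) ℝ
  /-- the coefficient matrices -/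
  B : (i : Fin nb) → Fin dim → Matrix (Fin (ord i)) (Fin (ord i)) ℝ
  /-- the feasible point of an assignment -/
  pt : (Fin n → Bool) → Fin dim → ℝ
  /-- the linear part of the loss of a clause -/
  w : Clause n → Fin dim → ℝ
  /-- the constant part of the loss of a clause -/
  w0 : Clause n → ℝ
  symm0 : ∀ i, (B0 i).IsSymm
  symm : ∀ i k, (B i k).IsSymm
  feas : ∀ x ∈ cell, ∀ i, (B0 i + ∑ k, pt x k • B i k).PosSemidef
  bdd : ∀ x ∈ cell, ∀ C, |∑ k, w C k * pt x k + w0 C| ≤ 1
  sound : ∀ x ∈ cell, ∀ C : Clause n, C.Sat x → ∑ k, w C k * pt x k + w0 C ≤ 0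

/-- the loss of the clause `C` at the point `y`. -/
noncomputable def URelax.loss {n : ℕ} (P : URelax n) (C : Clause n) (y : Fin P.dim → ℝ) : ℝ :=
  ∑ k, P.w C k * y k + P.w0 C

/-- The size of the relaxation: the number of entries of the matrices, plus one. -/
noncomputable def URelax.size {n : ℕ} (P : URelax n) : ℝ := ∑ i, ((P.ord i : ℝ)) ^ 2 + 1

/-- The relaxation refutes the formula `phi` with margin `de`: the total loss is at least `de` on
the whole convex set. -/
def URelax.Refutes {n m : ℕ} (P : URelax n) (phi : Fin m → Clause n) (de : ℝ) : Prop :=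
  ∀ y : Fin P.dim → ℝ, (∀ i, (P.B0 i + ∑ k, y k • P.B i k).PosSemidef) →
    de ≤ ∑ i, P.loss (phi i) y

/-- Relaxations from the family `P` of total size at most `S` refute the formula `phi` with margin
`de`: some of the cells are disjoint and cover the cube, for each of these cells the total loss is
at least `de` on the whole convex set, and the sizes of these relaxations sum up to at most `S`.
The choice may depend on `phi`. -/
def URefutedBy {n M m : ℕ} (P : Fin M → URelax n) (phi : Fin m → Clause n) (de S : ℝ) : Prop :=
  ∃ J : Finset (Fin M), (∀ j ∈ J, ∀ j' ∈ J, j ≠ j' → Disjoint (P j).cell (P j').cell) ∧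
    (∀ x, ∃ j ∈ J, x ∈ (P j).cell) ∧ (∀ j ∈ J, (P j).Refutes phi de) ∧
    ∑ j ∈ J, (P j).size ≤ S

open Classical in
/-- Convex programs of size `2 ^ (c n)`, chosen after the formula from a family of total size
`2 ^ (C n)`, do not refute `k`-CNFs with `O(n)` clauses and with the gap `(1 - ε) / 2 ^ k`.  There
are `K` and `γ > 0` such that for all large `n` there is a finite list of CNFs with `n` variables,
at most `K n` clauses, all of width exactly `k`, every assignment violating at least
`(1 - ε) m / 2 ^ k` of the `m` clauses, with the property: for every family `P` of convex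
programming relaxations on cells of the cube, of total size at most `2 ^ (C n)`, at most a
fraction `2 ^ (- γ n)` of the formulas of the list is refuted with margin `2 ^ (- γ n)` by
relaxations from `P` of total size at most `2 ^ (c n)`. -/
def HardU (k : ℕ) (ε c C : ℝ) : Prop :=
  ∃ (K : ℕ) (γ : ℝ), 0 < γ ∧ ∃ n₀ : ℕ, ∀ n : ℕ, n₀ ≤ n →
    ∃ (Y : ℕ) (m : Fin Y → ℕ) (phi : (a : Fin Y) → Fin (m a) → Clause n), 0 < Y ∧
      (∀ a, 1 ≤ m a ∧ m a ≤ K * n ∧
        (∀ i, (phi a i).card = k ∧ ((phi a i).image Prod.fst).card = k) ∧
        ∀ x, (1 - ε) * ((m a : ℝ) / 2 ^ k) ≤ (viol (phi a) x : ℝ)) ∧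
      ∀ (M : ℕ) (P : Fin M → URelax n), ∑ j, (P j).size ≤ (2 : ℝ) ^ (C * n) →
        ((Finset.univ.filter (fun a => URefutedBy P (phi a) ((2 : ℝ) ^ (-(γ * n)))
          ((2 : ℝ) ^ (c * n)))).card : ℝ) ≤ (2 : ℝ) ^ (-(γ * n)) * Y

/-- The large width case: for every `ε > 0` and every `C` there is a width. -/
def StatementUW : Prop :=
  ∀ C ε : ℝ, 0 < ε → ∃ k : ℕ, HardU k ε (1 - ε) C

/-- ETH and SETH for linear, second order cone and semidefinite programs with branch and bound: for
every gap `ε > 0` there are exponents `c k`, positive for all `k ≥ 3` and tending to `1`, and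
`C k ≥ c k`, tending to infinity, such that convex programs of size `2 ^ (c k n)`, chosen after the
formula from a family of total size `2 ^ (C k n)`, do not refute `k`-CNFs with `n` variables and
`O(n)` clauses, in which every assignment violates a fraction at least `(1 - ε) / 2 ^ k` of the
clauses. -/
def StatementU : Prop :=
  ∀ ε : ℝ, 0 < ε → ∃ c C : ℕ → ℝ, (∀ k, 3 ≤ k → 0 < c k ∧ c k ≤ C k) ∧ Tendsto c atTop (𝓝 1) ∧
    Tendsto C atTop atTop ∧ ∀ k, 3 ≤ k → HardU k ε (c k) (C k)

end Pool.Agent.H91.UV
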